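import Mathlib

namespace Pool.Agent.H.MP_aca74d_lc

open Complex

/-- the angle between two vectors is at least sixty degrees -/
def W (a b : ℂ) : Prop := 2 * (a.re * b.re + a.im * b.im) ≤ ‖a‖ * ‖b‖

def Eq3 (p q : ℂ) : Prop := q ^ 2 - p * q + p ^ 2 = 0

theorem nsq (a : ℂ) : ‖a‖ ^ 2 = a.re ^ 2 + a.im ^ 2 := by
  rw [Complex.sq_norm, Complex.normSq_apply]; ring

theorem W.symm {a b : ℂ} (h : W a b) : W b a := by unfold W at *; linarith [mul_comm ‖a‖ ‖b‖]

theorem W.mul {a b : ℂ} (h : W a b) (c : ℂ) : W (a * c) (b * c) := by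
  unfold W at *
  simp only [mul_re, mul_im, norm_mul]
  have h1 := nsq c
  have h2 : 0 ≤ ‖c‖ ^ 2 := by positivity
  calc _ = 2 * (a.re * b.re + a.im * b.im) * ‖c‖ ^ 2 := by rw [h1]; ring
    _ ≤ ‖a‖ * ‖b‖ * ‖c‖ ^ 2 := mul_le_mul_of_nonneg_right h h2
    _ = _ := by ring

theorem W.scale {a b : ℂ} (h : W a b) {s t : ℝ} (hs : 0 ≤ s) (ht : 0 ≤ t) : W (s * a) (t * b) := by
  unfold W at *
  simp only [re_ofReal_mul, im_ofReal_mul, norm_mul, Complex.norm_real, Real.norm_eq_abs, abs_of_nonneg hs,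
    abs_of_nonneg ht]
  calc _ = 2 * (a.re * b.re + a.im * b.im) * (s * t) := by ring
    _ ≤ ‖a‖ * ‖b‖ * (s * t) := mul_le_mul_of_nonneg_right h (mul_nonneg hs ht)
    _ = _ := by ring

theorem W.unscale {a b : ℂ} {s t : ℝ} (hs : 0 < s) (ht : 0 < t) (h : W (s * a) (t * b)) : W a b := by
  have := h.scale (inv_pos.2 hs).le (inv_pos.2 ht).le
  have e1 : (s : ℂ) ≠ 0 := by exact_mod_cast hs.ne'
  have e2 : (t : ℂ) ≠ 0 := by exact_mod_cast ht.ne'
  rwa [ofReal_inv, ofReal_inv, inv_mul_cancel_left₀ e1, inv_mul_cancel_left₀ e2] at this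

theorem W.neg {a b : ℂ} (h : W a b) : W (-a) (-b) := by simpa using h.mul (-1)

theorem not_W_self {a : ℂ} (ha : a ≠ 0) : ¬W a a := by
  unfold W
  have := nsq a
  have h := norm_pos_iff.2 ha
  nlinarith

theorem tri {p q : ℂ} (h1 : W p q) (h2 : W (-p) (q - p)) (h3 : W (-q) (p - q)) (hp : p ≠ 0) : Eq3 p q := by
  unfold W at *
  rw [norm_neg] at h2 h3
  rw [norm_sub_rev] at h3
  have a := nsq p
  have b := nsq q
  have c := nsq (q - p)
  simp only [sub_re, sub_im, neg_re, neg_im] at *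
  have e1 : ‖p‖ = ‖q‖ := by nlinarith [sq_nonneg (‖p‖ - ‖q‖), sq_nonneg (‖p‖ - ‖q - p‖), sq_nonneg (‖q‖ - ‖q - p‖)]
  have e2 : ‖p‖ = ‖q - p‖ := by
    nlinarith [sq_nonneg (‖p‖ - ‖q‖), sq_nonneg (‖p‖ - ‖q - p‖), sq_nonneg (‖q‖ - ‖q - p‖)]
  rw [← e1] at b
  rw [← e2] at c
  have k1 : p.re ^ 2 + p.im ^ 2 = q.re ^ 2 + q.im ^ 2 := by linarith
  have k2 : p.re ^ 2 + p.im ^ 2 = 2 * (p.re * q.re + p.im * q.im) := by nlinarith
  have hc : (starRingEnd ℂ) p ≠ 0 := by simpa using hp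
  unfold Eq3
  refine mul_left_cancel₀ hc (Complex.ext ?_ ?_)
  · simp [sq]
    linear_combination (q.re) * (-k2) + p.re * k1
  · simp [sq]
    linear_combination (q.im) * (-k2) + p.im * k1

theorem apex {p q q' : ℂ} (h : Eq3 p q) (h' : Eq3 p q') (hq : q ≠ q') : q + q' = p := by
  unfold Eq3 at *
  have : (q - q') * (q + q' - p) = 0 := by linear_combination h - h'
  rcases mul_eq_zero.1 this with e | e
  · exact absurd (sub_eq_zero.1 e) hq
  · exact sub_eq_zero.1 e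

theorem Eq3.symm {p q : ℂ} (h : Eq3 p q) : Eq3 q p := by unfold Eq3 at *; linear_combination h

theorem Eq3.neg {p q : ℂ} (h : Eq3 p q) : Eq3 (-p) (-q) := by unfold Eq3 at *; linear_combination h

theorem Eq3.ne {p q : ℂ} (h : Eq3 p q) (hp : p ≠ 0) : q ≠ 0 := by
  rintro rfl
  unfold Eq3 at h
  exact hp (by simpa using h)

theorem root {w : ℂ} (h : Eq3 1 w) : w.re = 1 / 2 ∧ w.im ^ 2 = 3 / 4 := by
  unfold Eq3 at h
  have h1 := congrArg re h
  have h2 := congrArg im h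
  simp [sq] at h1 h2
  have : w.im * (2 * w.re - 1) = 0 := by linarith
  rcases mul_eq_zero.1 this with e | e
  · rw [e] at h1; nlinarith [sq_nonneg (w.re - 1 / 2)]
  · constructor <;> nlinarith

theorem Eq3.div {p q : ℂ} (h : Eq3 p q) (hp : p ≠ 0) : Eq3 1 (q * p⁻¹) := by
  unfold Eq3 at *
  field_simp
  linear_combination h

theorem fire {p q w : ℂ} (h : Eq3 p q) (hp : p ≠ 0) (hw : w ≠ 0) (h1 : W w q) (h2 : W w (-q)) (h3 : W w (q - p))
    (h4 : W w (p - q)) (h5 : W w (-p)) : ∃ t : ℝ, 0 < t ∧ w = t * p := by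
  obtain ⟨r1, r2⟩ := root (h.div hp)
  have g1 := h1.mul p⁻¹
  have g2 := h2.mul p⁻¹
  have g3 := h3.mul p⁻¹
  have g4 := h4.mul p⁻¹
  have g5 := h5.mul p⁻¹
  rw [neg_mul] at g2 g5
  rw [sub_mul] at g3 g4
  rw [mul_inv_cancel₀ hp] at g3 g4 g5
  have hz : w * p⁻¹ ≠ 0 := mul_ne_zero hw (inv_ne_zero hp)
  have e : w = w * p⁻¹ * p := by field_simp
  generalize w * p⁻¹ = z at *
  generalize q * p⁻¹ = o at *
  have n1 : ‖o‖ = 1 := by
    have := nsq o
    have h0 := norm_nonneg o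
    nlinarith
  have n2 : ‖o - 1‖ = 1 := by
    have := nsq (o - 1)
    simp only [sub_re, sub_im, one_re, one_im] at this
    have h0 := norm_nonneg (o - 1)
    nlinarith
  unfold W at g1 g2 g3 g4 g5
  rw [norm_neg] at g2 g5
  rw [norm_sub_rev] at g4
  simp only [n1, n2, r1, neg_re, neg_im, sub_re, sub_im, one_re, one_im, norm_one] at g1 g2 g3 g4 g5
  have nz := nsq z
  have pz := norm_pos_iff.2 hz
  have a1 : (z.re + 2 * (z.im * o.im)) ^ 2 ≤ ‖z‖ ^ 2 := sq_le_sq' (by linarith) (by linarith)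
  have a2 : (z.re - 2 * (z.im * o.im)) ^ 2 ≤ ‖z‖ ^ 2 := sq_le_sq' (by linarith) (by linarith)
  have a3 : (z.im * o.im) ^ 2 = 3 / 4 * z.im ^ 2 := by rw [mul_pow, r2]; ring
  have y0 : z.im = 0 := by nlinarith
  refine ⟨z.re, ?_, ?_⟩
  · rw [y0] at nz
    by_contra hn
    nlinarith
  · rw [e]; congr 1; exact Complex.ext (by simp) (by simp [y0])

theorem link {p q p' q' : ℂ} (h : Eq3 p q) (h' : Eq3 p' q') (hp : p ≠ 0) {s s' t : ℝ} (hs : 0 < s) (hs' : 0 < s')
    (e1 : s * q = -(s' * q')) (e2 : 2 * (p + p') = (t : ℂ) * q) : p' = -p := by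
  have hq := h.ne hp
  have s0 : (s : ℂ) ≠ 0 := by exact_mod_cast hs.ne'
  have s0' : (s' : ℂ) ≠ 0 := by exact_mod_cast hs'.ne'
  have hq' : q' ≠ 0 := by
    rintro rfl
    exact mul_ne_zero s0 hq (by simpa using e1)
  obtain ⟨r1, r2⟩ := root (h.symm.div hq)
  obtain ⟨r3, r4⟩ := root (h'.symm.div hq')
  have a : p = p * q⁻¹ * q := by field_simp
  have b : p' = p' * q'⁻¹ * q' := by field_simp
  generalize p * q⁻¹ = x at *
  generalize p' * q'⁻¹ = y at *
  have c : 2 * (s' * x - s * y) = (s' : ℂ) * t := by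
    refine mul_right_cancel₀ hq ?_
    rw [a, b] at e2
    linear_combination s' * e2 - 2 * y * e1
  have d := congrArg im c
  simp at d
  have d' : s' * x.im = s * y.im := by linarith
  have d2 : s' ^ 2 * (3 / 4) = s ^ 2 * (3 / 4) := by
    calc s' ^ 2 * (3 / 4) = (s' * x.im) ^ 2 := by rw [mul_pow, r2]
      _ = (s * y.im) ^ 2 := by rw [d']
      _ = _ := by rw [mul_pow, r4]
  have d3 : s' = s := by nlinarith
  subst d3
  have xy : x = y := Complex.ext (by rw [r1, r3]) (mul_left_cancel₀ hs.ne' d')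
  have : q' = -q := mul_left_cancel₀ s0 (by linear_combination e1)
  rw [a, b, xy, this]; ring

/-- a primitive sixth root of unity -/
noncomputable def om : ℂ := ⟨1 / 2, √3 / 2⟩

theorem dir6 {a b a' b' : ℤ} (h : a ^ 2 + a * b + b ^ 2 = 1) (h' : a' ^ 2 + a' * b' + b' ^ 2 = 1)
    (hne : (a, b) ≠ (a', b')) : W (a + b * om) (a' + b' * om) := by
  have s3 : √3 ^ 2 = 3 := Real.sq_sqrt (by norm_num)
  have key : ∀ a b : ℤ, a ^ 2 + a * b + b ^ 2 = 1 → ‖(a : ℂ) + b * om‖ = 1 := fun a b h => by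
    have h1 := nsq ((a : ℂ) + b * om)
    have h2 : (a : ℝ) ^ 2 + a * b + b ^ 2 = 1 := by exact_mod_cast h
    simp [om] at h1
    have h0 := norm_nonneg ((a : ℂ) + b * om)
    simp only [om] at *
    have : ‖(a : ℂ) + b * ⟨1 / 2, √3 / 2⟩‖ ^ 2 = 1 := by
      simp only [one_div]
      rw [h1, mul_pow, div_pow, s3]; linarith
    nlinarith
  have i : 2 * a * a' + a * b' + a' * b + 2 * b * b' ≤ 1 := by
    by_contra hn
    have : (2 * (a - a') + (b - b')) ^ 2 + 3 * (b - b') ^ 2 ≤ 0 := by nlinarith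
    have e1 : b - b' = 0 := by nlinarith [sq_nonneg (2 * (a - a') + (b - b')), sq_nonneg (b - b')]
    have e2 : 2 * (a - a') + (b - b') = 0 := by nlinarith [sq_nonneg (2 * (a - a') + (b - b')), sq_nonneg (b - b')]
    exact hne (Prod.ext (by simp; omega) (by simp; omega))
  have j : (2 * a * a' + a * b' + a' * b + 2 * b * b' : ℝ) ≤ 1 := by exact_mod_cast i
  unfold W
  rw [key _ _ h, key _ _ h']
  simp [om]
  have : (b : ℝ) * (√3 / 2) * (b' * (√3 / 2)) = 3 / 4 * (b * b') := by linear_combination (b * b' / 4 : ℝ) * s3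
  rw [this]
  linarith

theorem coord {u v u' v' : ℝ} (h : (u : ℂ) + v * om = u' + v' * om) : u = u' ∧ v = v' := by
  have h1 := congrArg re h
  have h2 := congrArg im h
  simp [om] at h1 h2
  subst h2
  exact ⟨by linarith, rfl⟩

theorem exists_coord (z : ℂ) : ∃ u v : ℝ, z = u + v * om := by
  have s3 : √3 ≠ 0 := by positivity
  refine ⟨z.re - z.im / √3, 2 * z.im / √3, Complex.ext ?_ ?_⟩
  · simp only [om, add_re, ofReal_re, re_ofReal_mul]; ring
  · simp only [om, add_im, ofReal_im, im_ofReal_mul]; field_simp; ring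

end Pool.Agent.H.MP_aca74d_lc
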