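import Pool.Agent.H.MP_aca74d_lc.A

namespace Pool.Agent.H.MP_aca74d_lc

open Complex

/-- the lattice points of a patch of width `K` -/
def val (K i j : ℕ) : Prop :=
  i < K ∧ (j = 1 ∨ j = 2 ∨ (j = 0 ∧ i % 2 = 1) ∨ ((j = 3 ∨ j = 4) ∧ i % 3 ≠ 2))

/-- neighbours in the triangular lattice -/
def ladj (i j i' j' : ℕ) : Prop :=
  (i' = i + 1 ∧ j' = j) ∨ (i = i' + 1 ∧ j' = j) ∨ (i' = i ∧ j' = j + 1) ∨ (i' = i ∧ j = j' + 1) ∨
    (i = i' + 1 ∧ j' = j + 1) ∨ (i' = i + 1 ∧ j = j' + 1)

instance (K i j) : Decidable (val K i j) := by unfold val; infer_instance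
instance (i j i' j') : Decidable (ladj i j i' j') := by unfold ladj; infer_instance

structure Pat (K : ℕ) (f : ℕ → ℕ → ℂ) : Prop where
  inj : ∀ i j i' j', val K i j → val K i' j' → f i j = f i' j' → i = i' ∧ j = j'
  ang : ∀ i j i1 j1 i2 j2, val K i j → val K i1 j1 → val K i2 j2 → ladj i j i1 j1 → ladj i j i2 j2 →
    ¬(i1 = i2 ∧ j1 = j2) → W (f i1 j1 - f i j) (f i2 j2 - f i j)

variable {K : ℕ} {f : ℕ → ℕ → ℂ}

theorem Pat.tri (h : Pat K f) {a b c d e g : ℕ} (v1 : val K a b) (v2 : val K c d) (v3 : val K e g)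
    (l1 : ladj a b c d) (l2 : ladj a b e g) (l3 : ladj c d e g) : Eq3 (f c d - f a b) (f e g - f a b) := by
  have h1 := h.ang _ _ _ _ _ _ v1 v2 v3 l1 l2 (by unfold ladj at *; omega)
  have h2 := h.ang _ _ _ _ _ _ v2 v1 v3 (by unfold ladj at *; omega) l3 (by unfold ladj at *; omega)
  have h3 := h.ang _ _ _ _ _ _ v3 v1 v2 (by unfold ladj at *; omega) (by unfold ladj at *; omega)
    (by unfold ladj at *; omega)
  refine Pool.Agent.H.MP_aca74d_lc.tri h1 (by simpa using h2) (by simpa using h3) fun e => ?_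
  have := h.inj _ _ _ _ v2 v1 (sub_eq_zero.1 e)
  unfold ladj at *; omega

theorem Pat.rho (h : Pat K f) (a b c d e g e' g' : ℕ) (v1 : val K a b) (v2 : val K c d) (v3 : val K e g)
    (v4 : val K e' g') (l1 : ladj a b c d) (l2 : ladj a b e g) (l3 : ladj c d e g) (l4 : ladj a b e' g')
    (l5 : ladj c d e' g') (hn : ¬(e = e' ∧ g = g')) : f e g = f a b + f c d - f e' g' := by
  have := apex (h.tri v1 v2 v3 l1 l2 l3) (h.tri v1 v2 v4 l1 l4 l5) fun q =>
    hn (h.inj _ _ _ _ v3 v4 (sub_left_injective q))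
  linear_combination this

theorem Pat.frame (h : Pat K f) (h3 : K % 3 = 0) (h2 : 2 ≤ K) : ∃ o p q : ℂ, p ≠ 0 ∧ Eq3 p q ∧
    ∀ i j, val K i j → f i j = o + i * p + j * q := by
  have t := h.tri (a := 0) (b := 1) (c := 1) (d := 1) (e := 0) (g := 2) (by unfold val; omega) (by unfold val; omega)
    (by unfold val; omega) (by unfold ladj; omega) (by unfold ladj; omega) (by unfold ladj; omega)
  have hp : f 1 1 - f 0 1 ≠ 0 := fun e => by
    have := h.inj 1 1 0 1 (by unfold val; omega) (by unfold val; omega) (sub_eq_zero.1 e)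
    omega
  refine ⟨f 0 1 - (f 0 2 - f 0 1), _, _, hp, t, ?_⟩
  obtain ⟨p, ep⟩ : ∃ p, p = f 1 1 - f 0 1 := ⟨_, rfl⟩
  obtain ⟨q, eq⟩ : ∃ q, q = f 0 2 - f 0 1 := ⟨_, rfl⟩
  obtain ⟨o, eo⟩ : ∃ o, o = f 0 1 - q := ⟨_, rfl⟩
  rw [← ep, ← eq, ← eo]
  have s : ∀ i, i < K → f i 1 = o + i * p + q ∧ f i 2 = o + i * p + 2 * q ∧
      (i + 1 < K → f (i + 1) 1 = o + (i + 1) * p + q) := by
    intro i
    induction i with
    | zero =>
      refine fun _ => ⟨?_, ?_, fun _ => ?_⟩ <;> simp only [Nat.cast_zero, zero_add]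
      · linear_combination -eo
      · linear_combination -eo - eq
      · linear_combination -eo - ep
    | succ i ih =>
      intro hi
      obtain ⟨a, b, c⟩ := ih (by omega)
      have c := c hi
      have d : f (i + 1) 2 = o + (i + 1) * p + 2 * q := by
        rw [h.rho (i + 1) 1 i 2 (i + 1) 2 i 1 (by unfold val; omega) (by unfold val; omega) (by unfold val; omega)
          (by unfold val; omega) (by unfold ladj; omega) (by unfold ladj; omega) (by unfold ladj; omega)
          (by unfold ladj; omega) (by unfold ladj; omega) (by omega), a, b, c]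
        ring
      push_cast
      refine ⟨c, d, fun hj => ?_⟩
      rw [h.rho (i + 1) 1 (i + 1) 2 (i + 1 + 1) 1 i 2 (by unfold val; omega) (by unfold val; omega)
        (by unfold val; omega) (by unfold val; omega) (by unfold ladj; omega) (by unfold ladj; omega)
        (by unfold ladj; omega) (by unfold ladj; omega) (by unfold ladj; omega) (by omega), b, c, d]
      ring
  have s3 : ∀ i, i < K → i % 3 ≠ 2 → f i 3 = o + i * p + 3 * q := fun i hi hm => by
    rw [h.rho i 2 (i + 1) 2 i 3 (i + 1) 1 (by unfold val; omega) (by unfold val; omega)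
      (by unfold val; omega) (by unfold val; omega) (by unfold ladj; omega) (by unfold ladj; omega)
      (by unfold ladj; omega) (by unfold ladj; omega) (by unfold ladj; omega) (by omega), (s i hi).2.1,
      (s (i + 1) (by omega)).2.1, (s (i + 1) (by omega)).1]
    ring
  have s4 : ∀ i, i < K → i % 3 = 0 → f i 4 = o + i * p + 4 * q := fun i hi hm => by
    rw [h.rho i 3 (i + 1) 3 i 4 (i + 1) 2 (by unfold val; omega) (by unfold val; omega)
      (by unfold val; omega) (by unfold val; omega) (by unfold ladj; omega) (by unfold ladj; omega)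
      (by unfold ladj; omega) (by unfold ladj; omega) (by unfold ladj; omega) (by omega), s3 i hi (by omega),
      s3 (i + 1) (by omega) (by omega), (s (i + 1) (by omega)).2.1]
    ring
  rintro i j ⟨hi, rfl | rfl | ⟨rfl, hm⟩ | ⟨rfl | rfl, hm⟩⟩
  · simpa using (s i hi).1
  · simpa using (s i hi).2.1
  · obtain ⟨i, rfl⟩ : ∃ k, i = k + 1 := ⟨i - 1, by omega⟩
    rw [h.rho i 1 (i + 1) 1 (i + 1) 0 i 2 (by unfold val; omega) (by unfold val; omega)
      (by unfold val; omega) (by unfold val; omega) (by unfold ladj; omega) (by unfold ladj; omega)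
      (by unfold ladj; omega) (by unfold ladj; omega) (by unfold ladj; omega) (by omega), (s i (by omega)).1,
      (s i (by omega)).2.1, (s (i + 1) hi).1]
    push_cast; ring
  · simpa using s3 i hi hm
  · by_cases h0 : i % 3 = 0
    · simpa using s4 i hi h0
    obtain ⟨i, rfl⟩ : ∃ k, i = k + 1 := ⟨i - 1, by omega⟩
    rw [h.rho (i + 1) 3 i 4 (i + 1) 4 i 3 (by unfold val; omega) (by unfold val; omega)
      (by unfold val; omega) (by unfold val; omega) (by unfold ladj; omega) (by unfold ladj; omega)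
      (by unfold ladj; omega) (by unfold ladj; omega) (by unfold ladj; omega) (by omega), s3 i (by omega) (by omega),
      s3 (i + 1) hi hm, s4 i (by omega) (by omega)]
    push_cast; ring

/-- an extra edge at a vertex of the third row is parallel to the rows -/
theorem fireP {o p q z : ℂ} (hp : p ≠ 0) (he : Eq3 p q) (hf : ∀ i j, val K i j → f i j = o + i * p + j * q)
    (h3 : K % 3 = 0) {x : ℕ} (hx : 3 * x + 1 < K) (hz : z ≠ f (3 * x + 1) 3)
    (h : ∀ i j, val K i j → ladj (3 * x + 1) 3 i j → W (z - f (3 * x + 1) 3) (f i j - f (3 * x + 1) 3)) :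
    ∃ t : ℝ, 0 < t ∧ z - f (3 * x + 1) 3 = t * p := by
  have g : ∀ i j (w : ℂ), val K i j → ladj (3 * x + 1) 3 i j → w = (i - (3 * x + 1)) * p + (j - 3) * q →
      W (z - f (3 * x + 1) 3) w := fun i j w a b c => by
    have := h i j a b
    rwa [hf i j a, show o + i * p + j * q - f (3 * x + 1) 3 = w by
      rw [hf _ _ (by unfold val; omega), c]; push_cast; ring] at this
  exact fire he hp (sub_ne_zero.2 hz)
    (g (3 * x + 1) 4 _ (by unfold val; omega) (by unfold ladj; omega) (by push_cast; ring))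
    (g (3 * x + 1) 2 _ (by unfold val; omega) (by unfold ladj; omega) (by push_cast; ring))
    (g (3 * x) 4 _ (by unfold val; omega) (by unfold ladj; omega) (by push_cast; ring))
    (g (3 * x + 2) 2 _ (by unfold val; omega) (by unfold ladj; omega) (by push_cast; ring))
    (g (3 * x) 3 _ (by unfold val; omega) (by unfold ladj; omega) (by push_cast; ring))

/-- an extra edge at an even vertex of the first row points down -/
theorem fireQ {o p q z : ℂ} (hp : p ≠ 0) (he : Eq3 p q) (hf : ∀ i j, val K i j → f i j = o + i * p + j * q)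
    {y : ℕ} (h2 : y % 2 = 0) (h0 : 0 < y) (hx : y + 1 < K) (hz : z ≠ f y 1)
    (h : ∀ i j, val K i j → ladj y 1 i j → W (z - f y 1) (f i j - f y 1)) :
    ∃ t : ℝ, 0 < t ∧ z - f y 1 = t * -q := by
  obtain ⟨x, rfl⟩ : ∃ k, y = k + 1 := ⟨y - 1, by omega⟩
  have g : ∀ i j (w : ℂ), val K i j → ladj (x + 1) 1 i j → w = (i - (x + 1)) * p + (j - 1) * q →
      W (z - f (x + 1) 1) w := fun i j w a b c => by
    have := h i j a b
    rwa [hf i j a, show o + i * p + j * q - f (x + 1) 1 = w by
      rw [hf _ _ (by unfold val; omega), c]; push_cast; ring] at this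
  exact fire he.symm.neg (neg_ne_zero.2 (he.ne hp)) (sub_ne_zero.2 hz)
    (g x 1 _ (by unfold val; omega) (by unfold ladj; omega) (by push_cast; ring))
    (g (x + 2) 1 _ (by unfold val; omega) (by unfold ladj; omega) (by push_cast; ring))
    (g x 2 _ (by unfold val; omega) (by unfold ladj; omega) (by push_cast; ring))
    (g (x + 2) 0 _ (by unfold val; omega) (by unfold ladj; omega) (by push_cast; ring))
    (g (x + 1) 2 _ (by unfold val; omega) (by unfold ladj; omega) (by push_cast; ring))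

end Pool.Agent.H.MP_aca74d_lc
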