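import Pool.Agent.H.MP_aca74d_lc.B

namespace Pool.Agent.H.MP_aca74d_lc

open Complex

abbrev V := ℕ × ℕ × ℕ × ℕ × ℕ

def isV (n C L : ℕ) (v : V) : Prop :=
  (v.1 = 0 ∧ v.2.1 < n ∧ v.2.2.1 = 0 ∧ v.2.2.2.1 = 0 ∧ v.2.2.2.2 = 0) ∨
  (v.1 = 1 ∧ v.2.1 < C ∧ v.2.2.1 < L ∧ val (3 * n + 6) v.2.2.2.1 v.2.2.2.2) ∨
  (v.1 = 2 ∧ v.2.1 < C ∧ v.2.2.1 = 0 ∧ val (6 * ((n + 2) * L) + 6) v.2.2.2.1 v.2.2.2.2)

def rel (n : ℕ) (inc : List (ℕ × ℕ × ℕ)) (u v : V) : Prop :=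
  (u.1 ≠ 0 ∧ u.1 = v.1 ∧ u.2.1 = v.2.1 ∧ u.2.2.1 = v.2.2.1 ∧ ladj u.2.2.2.1 u.2.2.2.2 v.2.2.2.1 v.2.2.2.2) ∨
  (u.1 = 1 ∧ v.1 = 0 ∧ u.2.2.2.2 = 3 ∧ u.2.2.2.1 = 3 * v.2.1 + 1 ∧ (v.2.1, u.2.1, u.2.2.1) ∈ inc) ∨
  (u.1 = 1 ∧ v.1 = 2 ∧ u.2.1 = v.2.1 ∧ u.2.2.2.2 = 1 ∧ v.2.2.2.2 = 1 ∧ (u.2.2.2.1 = 2 ∨ u.2.2.2.1 = 4) ∧
    u.2.2.2.1 + v.2.2.2.1 = 6 * ((n + 2) * u.2.2.1) + 6)

instance (n C L v) : Decidable (isV n C L v) := by unfold isV; infer_instance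
instance (n inc u v) : Decidable (rel n inc u v) := by unfold rel; infer_instance

def adj (n : ℕ) (inc : List (ℕ × ℕ × ℕ)) (u v : V) : Prop := rel n inc u v ∨ rel n inc v u

def Draw (n C L : ℕ) (inc : List (ℕ × ℕ × ℕ)) : Prop :=
  ∃ pos : V → ℂ, (∀ u v, isV n C L u → isV n C L v → pos u = pos v → u = v) ∧
    ∀ u v w, isV n C L u → isV n C L v → isV n C L w → adj n inc u v → adj n inc u w → v ≠ w →
      W (pos v - pos u) (pos w - pos u)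

/-- points on lines that fall into classes of parallel lines -/
def Rz (n C : ℕ) (inc : List (ℕ × ℕ × ℕ)) : Prop :=
  ∃ (P : ℕ → ℂ) (b : ℕ → ℕ → ℂ) (d : ℕ → ℂ), (∀ x < n, ∀ y < n, P x = P y → x = y) ∧ (∀ c < C, d c ≠ 0) ∧
    (∀ e ∈ inc, ∃ t : ℝ, P e.1 = b e.2.1 e.2.2 + t * d e.2.1) ∧
    ∀ e ∈ inc, ∀ e' ∈ inc, e.1 = e'.1 → e ≠ e' → W (d e.2.1) (d e'.2.1)

theorem sep (n : ℕ) {m m' : ℕ} (h : m < m') : (n + 2) * m + (n + 2) ≤ (n + 2) * m' := by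
  rw [← Nat.mul_succ]; exact Nat.mul_le_mul_left _ h

theorem sound {n C L : ℕ} {inc : List (ℕ × ℕ × ℕ)} (hi : ∀ e ∈ inc, e.1 < n ∧ e.2.1 < C ∧ e.2.2 < L)
    (h : Draw n C L inc) : Rz n C inc := by
  obtain ⟨pos, inj, ang⟩ := h
  have pat : ∀ k c m K, k ≠ 0 → (∀ i j, val K i j → isV n C L (k, c, m, i, j)) →
      Pat K fun i j => pos (k, c, m, i, j) := fun k c m K hk hv =>
    ⟨fun i j i' j' a b e => by simpa using inj _ _ (hv _ _ a) (hv _ _ b) e,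
      fun i j i1 j1 i2 j2 a b c l1 l2 hn => ang _ _ _ (hv _ _ a) (hv _ _ b) (hv _ _ c)
        (Or.inl (Or.inl ⟨hk, rfl, rfl, rfl, l1⟩)) (Or.inl (Or.inl ⟨hk, rfl, rfl, rfl, l2⟩)) (by simpa using hn)⟩
  have vH : ∀ c < C, ∀ m < L, ∀ i j, val (3 * n + 6) i j → isV n C L (1, c, m, i, j) :=
    fun c hc m hm i j a => Or.inr (Or.inl ⟨rfl, hc, hm, a⟩)
  have vM : ∀ c < C, ∀ i j, val (6 * ((n + 2) * L) + 6) i j → isV n C L (2, c, 0, i, j) :=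
    fun c hc i j a => Or.inr (Or.inr ⟨rfl, hc, rfl, a⟩)
  have vP : ∀ x < n, isV n C L (0, x, 0, 0, 0) := fun x hx => Or.inl ⟨rfl, hx, rfl, rfl, rfl⟩
  have fH : ∀ c m, c < C → m < L → ∃ o p q : ℂ, p ≠ 0 ∧ Eq3 p q ∧
      ∀ i j, val (3 * n + 6) i j → pos (1, c, m, i, j) = o + i * p + j * q := fun c m hc hm =>
    (pat 1 c m _ (by simp) (vH c hc m hm)).frame (by omega) (by omega)
  have fM : ∀ c, c < C → ∃ o p q : ℂ, p ≠ 0 ∧ Eq3 p q ∧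
      ∀ i j, val (6 * ((n + 2) * L) + 6) i j → pos (2, c, 0, i, j) = o + i * p + j * q := fun c hc =>
    (pat 2 c 0 _ (by simp) (vM c hc)).frame (by omega) (by omega)
  choose! o p q hp he hf using fH
  choose! o' p' q' hp' he' hf' using fM
  have lk : ∀ c m, c < C → m < L → ∀ i i', (i = 2 ∨ i = 4) → i + i' = 6 * ((n + 2) * m) + 6 →
      ∃ s s' : ℝ, 0 < s ∧ 0 < s' ∧ pos (2, c, 0, i', 1) - pos (1, c, m, i, 1) = s * -q c m ∧
        pos (1, c, m, i, 1) - pos (2, c, 0, i', 1) = s' * -q' c := fun c m hc hm i i' h1 h2 => by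
    have := sep n hm
    have v1 := vH c hc m hm i 1 (by unfold val; omega)
    have v2 := vM c hc i' 1 (by unfold val; omega)
    have r : rel n inc (1, c, m, i, 1) (2, c, 0, i', 1) := Or.inr (Or.inr ⟨rfl, rfl, rfl, rfl, rfl, h1, h2⟩)
    have ne : pos (2, c, 0, i', 1) ≠ pos (1, c, m, i, 1) := fun e => by simpa using inj _ _ v2 v1 e
    obtain ⟨s, a, b⟩ := fireQ (f := fun i j => pos (1, c, m, i, j)) (hp c m hc hm) (he c m hc hm) (hf c m hc hm)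
      (y := i) (by omega) (by omega) (by omega) ne fun i1 j1 a b =>
        ang _ _ _ v1 v2 (vH c hc m hm _ _ a) (Or.inl r) (Or.inl (Or.inl ⟨by simp, rfl, rfl, rfl, b⟩)) (by simp)
    obtain ⟨s', a', b'⟩ := fireQ (f := fun i j => pos (2, c, 0, i, j)) (hp' c hc) (he' c hc) (hf' c hc)
      (y := i') (by omega) (by omega) (by omega) ne.symm fun i1 j1 a b =>
        ang _ _ _ v2 v1 (vM c hc _ _ a) (Or.inr r) (Or.inl (Or.inl ⟨by simp, rfl, rfl, rfl, b⟩)) (by simp)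
    exact ⟨s, s', a, a', b, b'⟩
  have par : ∀ c m, c < C → m < L → p' c = -p c m := fun c m hc hm => by
    have := sep n hm
    obtain ⟨s, s', a, a', b, b'⟩ := lk c m hc hm 2 (6 * ((n + 2) * m) + 4) (by simp) (by omega)
    obtain ⟨t, -, -, -, g, -⟩ := lk c m hc hm 4 (6 * ((n + 2) * m) + 2) (by simp) (by omega)
    refine link (he c m hc hm) (he' c hc) (hp c m hc hm) a a' (t := t - s) (by linear_combination b + b') ?_
    rw [hf c m hc hm _ _ (by unfold val; omega), hf' c hc _ _ (by unfold val; omega)] at b g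
    push_cast at b g ⊢
    linear_combination b - g
  have pt : ∀ e ∈ inc, isV n C L (1, e.2.1, e.2.2, 3 * e.1 + 1, 3) ∧
      rel n inc (1, e.2.1, e.2.2, 3 * e.1 + 1, 3) (0, e.1, 0, 0, 0) ∧
      ∃ t : ℝ, 0 < t ∧ pos (0, e.1, 0, 0, 0) - pos (1, e.2.1, e.2.2, 3 * e.1 + 1, 3) = t * -p' e.2.1 := by
    rintro ⟨x, c, m⟩ hx
    obtain ⟨h1, hc, hm⟩ := hi _ hx
    simp only at h1 hc hm ⊢
    have v1 := vH c hc m hm (3 * x + 1) 3 (by unfold val; omega)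
    have r : rel n inc (1, c, m, 3 * x + 1, 3) (0, x, 0, 0, 0) := Or.inr (Or.inl ⟨rfl, rfl, rfl, rfl, hx⟩)
    refine ⟨v1, r, ?_⟩
    rw [par c m hc hm, neg_neg]
    exact fireP (f := fun i j => pos (1, c, m, i, j)) (hp c m hc hm) (he c m hc hm) (hf c m hc hm) (by omega)
      (by omega) (fun e => by simpa using inj _ _ (vP x h1) v1 e) fun i1 j1 a b =>
        ang _ _ _ v1 (vP x h1) (vH c hc m hm _ _ a) (Or.inl r) (Or.inl (Or.inl ⟨by simp, rfl, rfl, rfl, b⟩)) (by simp)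
  refine ⟨fun x => pos (0, x, 0, 0, 0), fun c m => o c m + 3 * q c m, fun c => -p' c,
    fun x hx y hy e => by simpa using inj _ _ (vP x hx) (vP y hy) e, fun c hc => neg_ne_zero.2 (hp' c hc),
    fun e he => ?_, fun e he e' he' h1 h2 => ?_⟩
  · obtain ⟨-, -, t, -, g⟩ := pt e he
    obtain ⟨h1, hc, hm⟩ := hi _ he
    refine ⟨t + (3 * e.1 + 1), ?_⟩
    rw [hf _ _ hc hm _ _ (by unfold val; omega)] at g
    have := par _ _ hc hm
    push_cast at g ⊢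
    linear_combination g + (3 * e.1 + 1) * this
  · obtain ⟨v1, r1, t, a, g⟩ := pt e he
    obtain ⟨v2, r2, t', a', g'⟩ := pt e' he'
    rw [← h1] at v2 r2 g'
    have := (ang _ _ _ (vP _ (hi _ he).1) v1 v2 (Or.inr r1) (Or.inr r2) fun k => h2 (by
      simp only [Prod.mk.injEq, true_and, and_true] at k
      exact Prod.ext h1 (Prod.ext k.1 k.2))).neg
    rw [neg_sub, neg_sub, g, g'] at this
    exact this.unscale a a'

end Pool.Agent.H.MP_aca74d_lc
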