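import Pool.Agent.H.MP_aca74d_lc.C

namespace Pool.Agent.H.MP_aca74d_lc

open Complex

def vs (n C L : ℕ) : List V :=
  (List.range 3 ×ˢ List.range (n + C) ×ˢ List.range (L + 1) ×ˢ List.range (3 * n + 6 + (6 * ((n + 2) * L) + 6)) ×ˢ
    List.range 5).filter fun v => decide (isV n C L v)

theorem mem_vs {n C L v} : v ∈ vs n C L ↔ isV n C L v := by
  obtain ⟨k, c, m, i, j⟩ := v
  simp only [vs, List.mem_filter, List.mem_product, List.mem_range, decide_eq_true_eq, and_iff_right_iff_imp]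
  unfold isV val
  simp only
  omega

/-- the lattice direction of an edge at a vertex of a patch -/
def del (u v : V) : ℤ × ℤ :=
  if v.1 = u.1 then ((v.2.2.2.1 : ℤ) - u.2.2.2.1, (v.2.2.2.2 : ℤ) - u.2.2.2.2) else if v.1 = 0 then (1, 0) else (0, -1)

theorem adj_cases {n inc k c m i j k1 c1 m1 i1 j1} (h0 : k ≠ 0) (h : adj n inc (k, c, m, i, j) (k1, c1, m1, i1, j1)) :
    (k1 = k ∧ c1 = c ∧ m1 = m ∧ ladj i j i1 j1) ∨ (k = 1 ∧ k1 = 0 ∧ j = 3 ∧ i = 3 * c1 + 1) ∨
    (k = 1 ∧ k1 = 2 ∧ c1 = c ∧ j = 1 ∧ j1 = 1 ∧ (i = 2 ∨ i = 4) ∧ i + i1 = 6 * ((n + 2) * m) + 6) ∨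
    (k = 2 ∧ k1 = 1 ∧ c1 = c ∧ j = 1 ∧ j1 = 1 ∧ (i1 = 2 ∨ i1 = 4) ∧ i1 + i = 6 * ((n + 2) * m1) + 6) := by
  rcases h with (⟨-, h1, h2, h3, l⟩ | ⟨h1, h2, h3, h4, -⟩ | ⟨h1, h2, h3, h4, h5, h6, h7⟩) |
      (⟨-, h1, h2, h3, l⟩ | ⟨h1, h2, -⟩ | ⟨h1, h2, h3, h4, h5, h6, h7⟩)
  · exact Or.inl ⟨h1.symm, h2.symm, h3.symm, l⟩
  · exact Or.inr (Or.inl ⟨h1, h2, h3, h4⟩)
  · exact Or.inr (Or.inr (Or.inl ⟨h1, h2, h3.symm, h4, h5, h6, h7⟩))
  · exact Or.inl ⟨h1, h2, h3, by unfold ladj at *; simp only at l; omega⟩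
  · exact absurd h2 h0
  · exact Or.inr (Or.inr (Or.inr ⟨h2, h1, h3, h5, h4, h6, h7⟩))

theorem del_inj {n C L inc u v w} (hv : isV n C L v) (hw : isV n C L w) (h0 : u.1 ≠ 0)
    (h1 : adj n inc u v) (h2 : adj n inc u w) (h : del u v = del u w) : v = w := by
  obtain ⟨k, c, m, i, j⟩ := u
  obtain ⟨k1, c1, m1, i1, j1⟩ := v
  obtain ⟨k2, c2, m2, i2, j2⟩ := w
  have s1 := @sep n m1 m2
  have s2 := @sep n m2 m1
  have z : ∀ {k c m i j}, isV n C L (k, c, m, i, j) → (k = 0 → m = 0 ∧ i = 0 ∧ j = 0) ∧ (k = 2 → m = 0) ∧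
      (k ≠ 0 → (j = 0 → i % 2 = 1) ∧ (j = 3 → i % 3 ≠ 2)) := fun h => by
    unfold isV val at h
    simp only at h
    omega
  have z1 := z hv
  have z2 := z hw
  clear hv hw z
  rcases adj_cases h0 h1 with ⟨rfl, rfl, rfl, -⟩ | ⟨rfl, rfl, rfl, rfl⟩ | ⟨rfl, rfl, rfl, rfl, rfl, a1, a2⟩ |
    ⟨rfl, rfl, rfl, rfl, rfl, a1, a2⟩ <;>
  rcases adj_cases h0 h2 with ⟨e1, e2, e3, -⟩ | ⟨e1, e2, e3, e4⟩ | ⟨e1, e2, e3, e4, e5, e6, e7⟩ |
    ⟨e1, e2, e3, e4, e5, e6, e7⟩ <;> clear h1 h2 <;> simp only [del] at h h0 <;> split_ifs at h <;>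
    simp only [Prod.mk.injEq] at h ⊢ <;> first | omega | contradiction

theorem complete {n C L : ℕ} {inc : List (ℕ × ℕ × ℕ)} (hi : ∀ e ∈ inc, e.1 < n ∧ e.2.1 < C ∧ e.2.2 < L)
    (h : Rz n C inc) : Draw n C L inc := by
  obtain ⟨P, b, d, inj, hd, on, ang⟩ := h
  have hb : ∀ c m, c < C → ∃ u v : ℝ, b c m = (u + v * om) * d c := fun c m hc => by
    obtain ⟨u, v, e⟩ := exists_coord (b c m / d c)
    exact ⟨u, v, by rw [← e, div_mul_cancel₀ _ (hd c hc)]⟩
  choose! b1 b2 hb using hb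
  obtain ⟨G, hG⟩ : ∃ G : ℝ, ∀ c < C, ∀ m < L, -b2 c m + 10 ≤ G := by
    obtain ⟨G, hG⟩ := (((Set.finite_Iio C).prod (Set.finite_Iio L)).image fun e => -b2 e.1 e.2 + 10).bddAbove
    exact ⟨G, fun c hc m hm => hG ⟨(c, m), ⟨hc, hm⟩, rfl⟩⟩
  let U : V → ℝ := fun v => if v.1 = 1 then v.2.2.2.1 - (6 * ((n + 2) * v.2.2.1) + 6 : ℕ) else -v.2.2.2.1
  let Y : V → ℝ := fun v => if v.1 = 1 then b2 v.2.1 v.2.2.1 - 3 + v.2.2.2.2 else -G - v.2.2.2.2
  let z : V → ℂ := fun v => if v.1 = 0 then P v.2.1 else (U v + Y v * om) * d v.2.1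
  obtain ⟨R, hR⟩ : ∃ R : ℝ, ∀ v, isV n C L v → ‖z v‖ ≤ R := by
    obtain ⟨R, hR⟩ := ((vs n C L).finite_toSet.image fun v => ‖z v‖).bddAbove
    exact ⟨R, fun v hv => hR ⟨v, mem_vs.2 hv, rfl⟩⟩
  let s : ℕ → ℝ := fun c => (c + 1) * (2 * |R| + 1) / ‖d c‖
  let pos : V → ℂ := fun v => if v.1 = 0 then z v else z v - s v.2.1 * d v.2.1
  have hs : ∀ c < C, ‖(s c : ℂ) * d c‖ = (c + 1) * (2 * |R| + 1) := fun c hc => by
    have := norm_pos_iff.2 (hd c hc)
    rw [norm_mul, Complex.norm_real, Real.norm_eq_abs, abs_of_nonneg (by positivity)]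
    simp only [s]; field_simp
  have cl : ∀ v, isV n C L v → v.1 ≠ 0 → v.2.1 < C := fun v hv h => by unfold isV at hv; omega
  have nb : ∀ v, isV n C L v → v.1 ≠ 0 → (v.2.1 + 1) * (2 * |R| + 1) - |R| ≤ ‖pos v‖ ∧
      ‖pos v‖ ≤ (v.2.1 + 1) * (2 * |R| + 1) + |R| := fun v hv h => by
    have a := (hR v hv).trans (le_abs_self R)
    have e := hs _ (cl v hv h)
    simp only [pos, if_neg h]
    have h1 := norm_sub_norm_le ((s v.2.1 : ℂ) * d v.2.1) (z v)
    have h2 := norm_sub_le (z v) ((s v.2.1 : ℂ) * d v.2.1)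
    rw [norm_sub_rev] at h1
    constructor <;> linarith
  have R0 := abs_nonneg R
  have port : ∀ x c m, (x, c, m) ∈ inc → ∃ t : ℝ, 0 < t ∧ pos (0, x, 0, 0, 0) - pos (1, c, m, 3 * x + 1, 3) = t * d c := by
    intro x c m hx
    obtain ⟨h1, hc, hm⟩ := hi _ hx
    obtain ⟨t, ht⟩ := on _ hx
    simp only at h1 hc hm ht
    have e : z (0, x, 0, 0, 0) - z (1, c, m, 3 * x + 1, 3) = (b1 c m + t - U (1, c, m, 3 * x + 1, 3) : ℝ) * d c := by
      simp only [z, Y, if_pos, one_ne_zero, if_false, ht, hb c m hc]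
      push_cast; ring
    generalize b1 c m + t - U (1, c, m, 3 * x + 1, 3) = r at e
    refine ⟨r + s c, ?_, ?_⟩
    · have a1 := (hR (0, x, 0, 0, 0) (Or.inl ⟨rfl, h1, rfl, rfl, rfl⟩)).trans (le_abs_self R)
      have a2 := (hR (1, c, m, 3 * x + 1, 3) (Or.inr (Or.inl ⟨rfl, hc, hm, show val _ (3 * x + 1) 3 by unfold val; omega⟩))).trans
        (le_abs_self R)
      have a3 := norm_sub_le (z (0, x, 0, 0, 0)) (z (1, c, m, 3 * x + 1, 3))
      rw [e, norm_mul, Complex.norm_real, Real.norm_eq_abs] at a3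
      have a4 := norm_pos_iff.2 (hd c hc)
      have a5 : s c * ‖d c‖ = (c + 1) * (2 * |R| + 1) := by simp only [s]; field_simp
      have a6 : (0 : ℝ) ≤ c * (2 * |R| + 1) := by positivity
      have a7 : -r * ‖d c‖ ≤ |r| * ‖d c‖ := mul_le_mul_of_nonneg_right (neg_le_abs r) a4.le
      by_contra hn
      have : (r + s c) * ‖d c‖ ≤ 0 := mul_nonpos_of_nonpos_of_nonneg (not_lt.1 hn) a4.le
      nlinarith
    · simp only [pos, if_pos, one_ne_zero, if_false]
      push_cast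
      linear_combination e
  have edge : ∀ u v, isV n C L u → isV n C L v → u.1 ≠ 0 → adj n inc u v →
      (del u v).1 ^ 2 + (del u v).1 * (del u v).2 + (del u v).2 ^ 2 = 1 ∧ ∃ t : ℝ, 0 < t ∧
        pos v - pos u = t * ((((del u v).1 : ℂ) + ((del u v).2 : ℂ) * om) * ((if u.1 = 1 then 1 else -1) * d u.2.1)) := by
    rintro ⟨k, c, m, i, j⟩ ⟨k', c', m', i', j'⟩ hu hv h0 ha
    have in1 : k' = k → c' = c → m' = m → ladj i j i' j' →
        (del (k, c, m, i, j) (k', c', m', i', j')).1 ^ 2 + (del (k, c, m, i, j) (k', c', m', i', j')).1 *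
          (del (k, c, m, i, j) (k', c', m', i', j')).2 + (del (k, c, m, i, j) (k', c', m', i', j')).2 ^ 2 = 1 ∧
        ∃ t : ℝ, 0 < t ∧ pos (k', c', m', i', j') - pos (k, c, m, i, j) =
          t * ((((del (k, c, m, i, j) (k', c', m', i', j')).1 : ℂ) +
            ((del (k, c, m, i, j) (k', c', m', i', j')).2 : ℂ) * om) * ((if k = 1 then 1 else -1) * d c)) := by
      rintro rfl rfl rfl l
      simp only at h0
      refine ⟨?_, 1, one_pos, ?_⟩
      · simp only [del, if_pos]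
        rcases l with ⟨rfl, rfl⟩ | ⟨rfl, rfl⟩ | ⟨rfl, rfl⟩ | ⟨rfl, rfl⟩ | ⟨rfl, rfl⟩ | ⟨rfl, rfl⟩ <;> push_cast <;> ring
      · simp only [del, if_pos, pos, z, U, Y, if_neg h0]
        split_ifs <;> push_cast <;> ring
    rcases ha with (⟨-, h1, h2, h3, l⟩ | ⟨h1, h2, h3, h4, h5⟩ | ⟨h1, h2, h3, h4, h5, h6, h7⟩) |
      (⟨-, h1, h2, h3, l⟩ | ⟨h1, h2, -⟩ | ⟨h1, h2, h3, h4, h5, h6, h7⟩)
    · exact in1 h1.symm h2.symm h3.symm l
    · simp only at h1 h2 h3 h4 h5
      subst h1 h2 h3 h4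
      obtain ⟨rfl, rfl, rfl⟩ : m' = 0 ∧ i' = 0 ∧ j' = 0 := by unfold isV at hv; simp only at hv; omega
      obtain ⟨t, a, e⟩ := port _ _ _ h5
      exact ⟨by simp [del], t, a, by rw [e]; simp [del]⟩
    · simp only at h1 h2 h3 h4 h5 h6 h7
      subst h1 h2 h3 h4 h5
      have hm : c < C ∧ m < L := by unfold isV at hu; simp only at hu; omega
      have := hG c hm.1 m hm.2
      refine ⟨by simp [del], b2 c m - 1 + G, by linarith, ?_⟩
      have e : (i : ℂ) + i' = (6 * ((n + 2) * m) + 6 : ℕ) := by exact_mod_cast h7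
      simp [del, pos, z, U, Y]
      push_cast at e
      linear_combination (-d c) * e
    · exact in1 h1 h2 h3 (by unfold ladj at *; simp only at l; omega)
    · exact absurd h2 h0
    · simp only at h1 h2 h3 h4 h5 h6 h7
      subst h1 h2 h3 h4 h5
      have hm : c' < C ∧ m' < L := by unfold isV at hv; simp only at hv; omega
      have := hG c' hm.1 m' hm.2
      refine ⟨by simp [del], b2 c' m' - 1 + G, by linarith, ?_⟩
      have e : (i' : ℂ) + i = (6 * ((n + 2) * m') + 6 : ℕ) := by exact_mod_cast h7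
      simp [del, pos, z, U, Y]
      push_cast at e
      linear_combination (d c') * e
  refine ⟨pos, fun u v hu hv e => ?_, fun u v w hu hv hw h1 h2 hn => ?_⟩
  · have pp : ∀ u v, isV n C L u → isV n C L v → u.1 = 0 → v.1 ≠ 0 → pos u ≠ pos v := fun u v hu hv a a' e => by
      have h1 := (nb v hv a').1
      have h2 := (hR u hu).trans (le_abs_self R)
      rw [← e] at h1
      simp only [pos, if_pos a] at h1
      have a6 : (0 : ℝ) ≤ v.2.1 * (2 * |R| + 1) := by positivity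
      nlinarith
    have qq : ∀ u v, isV n C L u → isV n C L v → u.1 ≠ 0 → v.1 ≠ 0 → pos u = pos v → u.2.1 ≤ v.2.1 :=
      fun u v hu hv a a' e => by
        have h1 := (nb u hu a).1
        have h2 := (nb v hv a').2
        rw [e] at h1
        by_contra hn
        have : (v.2.1 : ℝ) + 1 ≤ u.2.1 := by exact_mod_cast not_le.1 hn
        nlinarith
    by_cases a : u.1 = 0 <;> by_cases a' : v.1 = 0
    · simp only [pos, z, if_pos a, if_pos a'] at e
      obtain ⟨k, c, m, i, j⟩ := u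
      obtain ⟨k', c', m', i', j'⟩ := v
      unfold isV at hu hv
      simp only at *
      have := inj c (by omega) c' (by omega) e
      simp only [Prod.mk.injEq]; omega
    · exact absurd e (pp u v hu hv a a')
    · exact absurd e.symm (pp v u hv hu a' a)
    have ec := le_antisymm (qq u v hu hv a a' e) (qq v u hv hu a' a e.symm)
    have hc := hd _ (cl v hv a')
    simp only [pos, z, if_neg a, if_neg a', ec, sub_left_inj] at e
    obtain ⟨e1, e2⟩ := coord (mul_right_cancel₀ hc e)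
    obtain ⟨k, c, m, i, j⟩ := u
    obtain ⟨k', c', m', i', j'⟩ := v
    simp only at ec a a'
    subst ec
    have s1 := @sep n m m'
    have s2 := @sep n m' m
    unfold isV val at hu hv
    simp only [U, Y] at e1 e2 hu hv
    by_cases t : k = 1 <;> by_cases t' : k' = 1 <;> simp only [t, t', if_true, if_false] at e1 e2
    · have f1 : i + (6 * ((n + 2) * m') + 6) = i' + (6 * ((n + 2) * m) + 6) := by
        have : (i : ℝ) + (6 * ((n + 2) * m') + 6 : ℕ) = i' + (6 * ((n + 2) * m) + 6 : ℕ) := by linarith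
        exact_mod_cast this
      obtain rfl : m = m' := by omega
      have f2 : j = j' := by exact_mod_cast add_left_cancel e2
      simp only [Prod.mk.injEq, true_and, and_true]; omega
    · have := hG c (by omega) m (by omega)
      have : (0 : ℝ) ≤ j := by positivity
      have : (0 : ℝ) ≤ j' := by positivity
      linarith
    · have := hG c (by omega) m' (by omega)
      have : (0 : ℝ) ≤ j := by positivity
      have : (0 : ℝ) ≤ j' := by positivity
      linarith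
    · have f1 : i = i' := by exact_mod_cast neg_injective e1
      have f2 : j = j' := by exact_mod_cast sub_right_injective e2
      simp only [Prod.mk.injEq, true_and, and_true]; omega
  · by_cases a : u.1 = 0
    · have nbr : ∀ v, isV n C L v → adj n inc u v → (u.2.1, v.2.1, v.2.2.1) ∈ inc ∧
          v = (1, v.2.1, v.2.2.1, 3 * u.2.1 + 1, 3) := by
        rintro ⟨k', c', m', i', j'⟩ hv ((⟨h, -⟩ | ⟨h, -⟩ | ⟨h, -⟩) | (⟨h, h', -⟩ | ⟨h1, -, h3, h4, h5⟩ | ⟨-, h, -⟩))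
        · exact absurd a h
        · omega
        · omega
        · omega
        · simp only at h1 h3 h4 h5 ⊢
          exact ⟨h5, by rw [h1, h3, h4]⟩
        · omega
      obtain ⟨m1, e1⟩ := nbr v hv h1
      obtain ⟨m2, e2⟩ := nbr w hw h2
      have eu : u = (0, u.2.1, 0, 0, 0) := by
        obtain ⟨k, c, m, i, j⟩ := u
        unfold isV at hu
        simp only [Prod.mk.injEq, true_and, and_true] at *; omega
      obtain ⟨t, ht, g⟩ := port _ _ _ m1
      obtain ⟨t', ht', g'⟩ := port _ _ _ m2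
      rw [← e1, ← eu] at g
      rw [← e2, ← eu] at g'
      have := ((ang _ m1 _ m2 rfl fun k => hn (by
        simp only [Prod.mk.injEq, true_and] at k
        rw [e1, e2, k.1, k.2])).scale ht.le ht'.le).neg
      simp only at this
      rwa [← g, ← g', neg_sub, neg_sub] at this
    · obtain ⟨n1, t, ht, g⟩ := edge u v hu hv a h1
      obtain ⟨n2, t', ht', g'⟩ := edge u w hu hw a h2
      rw [g, g']
      exact ((dir6 n1 n2 fun k => hn (del_inj hv hw a h1 h2 k)).mul _).scale ht.le ht'.le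

end Pool.Agent.H.MP_aca74d_lc
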