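import Pool.Agent.H.MP_aca74d_lc.C
import Pool.Agent.Lib.helper22.CXEtrD

namespace Pool.Agent.H.MP_aca74d_lc

open Complex Pool.Agent.Lib.ER

def gd (G : List Q4) (k : ℕ) : Q4 := G.getD k (0, 0, 0, 0)
def fV (x : ℕ) : ℕ := 2 * (x / 5) + if x % 5 = 0 ∨ x % 5 = 2 then 0 else 1
def fH (G : List Q4) (x : ℕ) : ℕ :=
  if x % 5 = 1 then (gd G (x / 5)).1 else if x % 5 = 2 then (gd G (x / 5)).2.2.1
  else if x % 5 = 3 then (gd G (x / 5)).2.2.2 else 0
def fC (G : List Q4) (x : ℕ) : ℕ := if x % 5 < 2 then 2 else (gd G (x / 5)).2.1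
def fM (x : ℕ) : ℕ := 2 * (x / 5) + if x % 5 < 2 then 0 else 1

def inc (G : List Q4) : List (ℕ × ℕ × ℕ) :=
  (List.range (5 * G.length)).flatMap fun x =>
    [(x, 0, fV x), (x, 1, fH G x)] ++ if x % 5 = 4 then [] else [(x, fC G x, fM x)]

theorem mem_inc {G e} : e ∈ inc G ↔ e.1 < 5 * G.length ∧
    (e.2 = (0, fV e.1) ∨ e.2 = (1, fH G e.1) ∨ (e.1 % 5 ≠ 4 ∧ e.2 = (fC G e.1, fM e.1))) := by
  obtain ⟨x, r⟩ := e
  simp only [inc, List.mem_flatMap, List.mem_range, List.mem_append, List.mem_cons, Prod.mk.injEq,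
    List.not_mem_nil, or_false]
  constructor
  · rintro ⟨y, hy, (⟨rfl, h⟩ | ⟨rfl, h⟩) | h⟩
    · exact ⟨hy, Or.inl h⟩
    · exact ⟨hy, Or.inr (Or.inl h)⟩
    · split_ifs at h with g
      · simp at h
      · simp only [List.mem_cons, Prod.mk.injEq, List.not_mem_nil, or_false] at h
        obtain ⟨rfl, h⟩ := h
        exact ⟨hy, Or.inr (Or.inr ⟨g, h⟩)⟩
  · rintro ⟨hx, h | h | ⟨g, h⟩⟩
    · exact ⟨x, hx, Or.inl (Or.inl ⟨rfl, h⟩)⟩
    · exact ⟨x, hx, Or.inl (Or.inr ⟨rfl, h⟩)⟩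
    · exact ⟨x, hx, Or.inr (by simp [g, h])⟩

def cr (u v : ℂ) : ℝ := u.re * v.im - u.im * v.re

theorem par_of {u v : ℂ} (hv : v ≠ 0) (h : cr u v = 0) : ∃ a : ℝ, u = a * v := by
  have h1 := nsq v
  have h2 := norm_pos_iff.2 hv
  have h3 : v.re ^ 2 + v.im ^ 2 ≠ 0 := by rw [← h1]; positivity
  unfold cr at h
  refine ⟨(u.re * v.re + u.im * v.im) / (v.re ^ 2 + v.im ^ 2), Complex.ext ?_ ?_⟩
  · rw [re_ofReal_mul]; field_simp; linear_combination v.im * h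
  · rw [im_ofReal_mul]; field_simp; linear_combination -v.re * h

theorem three {u v w : ℂ} (hu : u ≠ 0) (hv : v ≠ 0) (hw : w ≠ 0) (h1 : W u v) (h2 : W u w) (h3 : W v w)
    (c1 : cr u v = 0) (c2 : cr w v = 0) : False := by
  obtain ⟨a, rfl⟩ := par_of hv c1
  obtain ⟨b, rfl⟩ := par_of hv c2
  have a0 : a ≠ 0 := by rintro rfl; simp at hu
  have b0 : b ≠ 0 := by rintro rfl; simp at hw
  rcases lt_or_gt_of_ne a0 with a1 | a1
  · rcases lt_or_gt_of_ne b0 with b1 | b1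
    · refine not_W_self (neg_ne_zero.2 hv) (W.unscale (neg_pos.2 a1) (neg_pos.2 b1) ?_)
      simpa using h2
    · exact not_W_self hv (W.unscale one_pos b1 (by simpa using h3))
  · exact not_W_self hv (W.unscale a1 one_pos (by simpa using h1))

theorem gad_sound {C G} (hC : 2 < C) (h : Rz (5 * G.length) C (inc G)) : ∃ Y τ : ℕ → ℝ, ∀ g ∈ G,
    Y g.1 ≠ 0 ∧ τ 2 = 1 ∧ Y g.2.2.2 - Y g.2.2.1 = Y g.1 * τ g.2.1 := by
  obtain ⟨P, b, d, inj, hd, on, ang⟩ := h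
  refine ⟨fun m => cr (d 1) (b 1 m) - cr (d 1) (b 1 0),
    fun c => cr (d 1) (d c) / cr (d c) (d 0) / (cr (d 1) (d 2) / cr (d 2) (d 0)), fun g hg => ?_⟩
  obtain ⟨k, hk, rfl⟩ := List.getElem_of_mem hg
  have e : gd G k = G[k] := by simp [gd, hk]
  rw [← e]
  have q : ∀ r < 5, (5 * k + r) / 5 = k ∧ (5 * k + r) % 5 = r := fun r hr => by omega
  have mV : ∀ r < 5, (5 * k + r, 0, 2 * k + if r = 0 ∨ r = 2 then 0 else 1) ∈ inc G := fun r hr =>
    mem_inc.2 ⟨by simp only; omega, Or.inl (by simp only [fV, (q r hr).1, (q r hr).2])⟩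
  have mH : ∀ r < 5, (5 * k + r, 1, if r = 1 then (gd G k).1 else if r = 2 then (gd G k).2.2.1
      else if r = 3 then (gd G k).2.2.2 else 0) ∈ inc G := fun r hr =>
    mem_inc.2 ⟨by simp only; omega, Or.inr (Or.inl (by simp only [fH, (q r hr).1, (q r hr).2]))⟩
  have mC : ∀ r < 4, (5 * k + r, if r < 2 then 2 else (gd G k).2.1, 2 * k + if r < 2 then 0 else 1) ∈ inc G :=
    fun r hr => mem_inc.2 ⟨by simp only; omega, Or.inr (Or.inr ⟨by simp only; omega,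
      by simp only [fC, fM, (q r (by omega)).1, (q r (by omega)).2]⟩)⟩
  have ne : ∀ r < 5, ∀ s < 5, r ≠ s → P (5 * k + r) ≠ P (5 * k + s) := fun r hr s hs hn e => by
    have := inj _ (by omega) _ (by omega) e
    omega
  have w1 := ang _ (mV 0 (by omega)) _ (mH 0 (by omega)) rfl (by simp)
  have w2 := ang _ (mV 0 (by omega)) _ (mC 0 (by omega)) rfl (by simp)
  have w3 := ang _ (mH 0 (by omega)) _ (mC 0 (by omega)) rfl (by simp)
  obtain ⟨v0, a0⟩ := on _ (mV 0 (by omega))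
  obtain ⟨v1, a1⟩ := on _ (mV 1 (by omega))
  obtain ⟨v2, a2⟩ := on _ (mV 2 (by omega))
  obtain ⟨v3, a3⟩ := on _ (mV 3 (by omega))
  obtain ⟨v4, a4⟩ := on _ (mV 4 (by omega))
  obtain ⟨h0, b0⟩ := on _ (mH 0 (by omega))
  obtain ⟨h1, b1⟩ := on _ (mH 1 (by omega))
  obtain ⟨h2, b2⟩ := on _ (mH 2 (by omega))
  obtain ⟨h3, b3⟩ := on _ (mH 3 (by omega))
  obtain ⟨h4, b4⟩ := on _ (mH 4 (by omega))
  obtain ⟨t0, c0⟩ := on _ (mC 0 (by omega))
  obtain ⟨t1, c1⟩ := on _ (mC 1 (by omega))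
  obtain ⟨t2, c2⟩ := on _ (mC 2 (by omega))
  obtain ⟨t3, c3⟩ := on _ (mC 3 (by omega))
  have n01 := ne 0 (by omega) 1 (by omega) (by omega)
  have n04 := ne 0 (by omega) 4 (by omega) (by omega)
  have n14 := ne 1 (by omega) 4 (by omega) (by omega)
  simp only [Nat.reduceEqDiff, Nat.reduceLT, or_self, or_false, or_true, if_true, if_false, Nat.lt_irrefl,
    OfNat.ofNat_ne_zero, OfNat.zero_ne_ofNat, one_ne_zero, zero_ne_one, OfNat.one_ne_ofNat,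
    OfNat.ofNat_ne_one] at w1 w2 w3 a0 a1 a2 a3 a4 b0 b1 b2 b3 b4 c0 c1 c2 c3
  have d0 := hd 0 (by omega)
  have d1 := hd 1 (by omega)
  have d2 := hd 2 (by omega)
  generalize P (5 * k + 0) = p0 at *
  generalize P (5 * k + 1) = p1 at *
  generalize P (5 * k + 2) = p2 at *
  generalize P (5 * k + 3) = p3 at *
  generalize P (5 * k + 4) = p4 at *
  have k1 : ∀ {p z u : ℂ} {t : ℝ}, p = z + t * u → cr u p = cr u z ∧ cr p u = cr z u := by
    rintro p z u t rfl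
    simp only [cr, add_re, add_im, re_ofReal_mul, im_ofReal_mul]
    constructor <;> ring
  have k2 : ∀ {p p' z u : ℂ} {t t' : ℝ}, p = z + t * u → p' = z + t' * u → ∀ y, cr y p' - cr y p = (t' - t) * cr y u ∧
      cr p' y - cr p y = (t' - t) * cr u y := by
    rintro p p' z u t t' rfl rfl y
    simp only [cr, add_re, add_im, re_ofReal_mul, im_ofReal_mul]
    constructor <;> ring
  have k3 : ∀ {p p' z u : ℂ} {t t' : ℝ}, p = z + t * u → p' = z + t' * u → p ≠ p' → t' - t ≠ 0 := by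
    rintro p p' z u t t' rfl rfl hn e
    exact hn (by rw [sub_eq_zero.1 e])
  have anti : ∀ u v, cr u v = -cr v u := fun u v => by unfold cr; ring
  have D : cr (d 1) (d 0) ≠ 0 := fun D => by
    refine three d0 d1 d2 w1 w2 w3 (by rw [anti, D, neg_zero]) ?_
    have e1 := (k2 c0 c1 (d 1)).1
    have e2 := (k2 a4 a1 (d 1)).1
    have e3 := (k1 b0).1
    have e4 := (k1 b4).1
    rw [D] at e2
    have : (t1 - t0) * cr (d 1) (d 2) = 0 := by linarith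
    rw [anti, (mul_eq_zero.1 this).resolve_left (k3 c0 c1 n01), neg_zero]
  have dx : cr p1 (d 0) - cr p0 (d 0) ≠ 0 := by
    have e1 := (k2 b0 b4 (d 0)).2
    rw [(k1 a1).2, ← (k1 a4).2, e1]
    exact mul_ne_zero (k3 b0 b4 n04) D
  have dy : cr (d 1) p1 - cr (d 1) p0 ≠ 0 := by
    have e1 := (k2 a4 a1 (d 1)).1
    rw [(k1 b0).1, ← (k1 b4).1, e1]
    exact mul_ne_zero (k3 a4 a1 n14.symm) D
  obtain ⟨x1, y1⟩ := And.intro (k2 c0 c1 (d 0)).2 (k2 c0 c1 (d 1)).1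
  obtain ⟨x2, y2⟩ := And.intro (k2 c2 c3 (d 0)).2 (k2 c2 c3 (d 1)).1
  rw [(k1 a3).2, ← (k1 a1).2, (k1 a2).2, ← (k1 a0).2] at x2
  simp only [← (k1 b1).1, ← (k1 b2).1, ← (k1 b3).1, ← (k1 b0).1]
  have z1 : cr (d 2) (d 0) ≠ 0 := fun e => dx (by rw [x1, e, mul_zero])
  have z2 : cr (d 1) (d 2) ≠ 0 := fun e => dy (by rw [y1, e, mul_zero])
  have z3 : cr (d (gd G k).2.1) (d 0) ≠ 0 := fun e => dx (by rw [x2, e, mul_zero])
  refine ⟨dy, div_self (div_ne_zero z2 z1), ?_⟩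
  rw [sub_sub_sub_cancel_right, y1, y2]
  field_simp
  linear_combination cr (d 1) (d (gd G k).2.1) * (x1 - x2)

theorem gad_complete {C} {G : List Q4} (Y τ : ℕ → ℝ) (h0 : Y 0 = 0) (h2 : τ 2 = 1) (h : ∀ g ∈ G, 2 ≤ g.2.1 ∧
    0 < Y g.1 ∧ 0 < Y g.2.2.1 ∧ Y g.1 < Y g.2.2.2 ∧ 0 ≤ τ g.2.1 ∧ Y g.2.2.2 = Y g.1 * τ g.2.1 + Y g.2.2.1) :
    Rz (5 * G.length) C (inc G) := by
  obtain ⟨Γ, hΓ⟩ : ∃ Γ : ℝ, ∀ g ∈ G, Y g.1 + 1 ≤ Γ := by
    obtain ⟨Γ, hΓ⟩ := (G.finite_toSet.image fun g => Y g.1 + 1).bddAbove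
    exact ⟨Γ, fun g hg => hΓ ⟨g, hg, rfl⟩⟩
  have mem : ∀ x < 5 * G.length, gd G (x / 5) ∈ G := fun x hx => by
    have : x / 5 < G.length := by omega
    simp [gd, this]
  let X : ℕ → ℝ := fun m => (m / 2 : ℕ) * Γ + if m % 2 = 0 then 0 else Y (gd G (m / 2)).1
  have eX : ∀ x, X (fV x) = (x / 5 : ℕ) * Γ + if x % 5 = 0 ∨ x % 5 = 2 then 0 else Y (gd G (x / 5)).1 := fun x => by
    simp only [X, fV]
    split_ifs with g1 g2 g2
    · rw [show (2 * (x / 5) + 0) / 2 = x / 5 by omega]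
    · omega
    · omega
    · rw [show (2 * (x / 5) + 1) / 2 = x / 5 by omega]
  let d : ℕ → ℂ := fun c => if c = 0 then -I else if c = 1 then -1 else ⟨1, τ c⟩
  have cl : ∀ x < 5 * G.length, 2 ≤ fC G x ∧ 0 ≤ τ (fC G x) := fun x hx => by
    unfold fC
    split_ifs
    · simp [h2]
    · exact ⟨(h _ (mem x hx)).1, (h _ (mem x hx)).2.2.2.2.1⟩
  have w0 : ∀ u v : ℂ, u.re * v.re + u.im * v.im ≤ 0 → W u v := fun u v e => by
    unfold W
    have : 0 ≤ ‖u‖ * ‖v‖ := by positivity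
    linarith
  refine ⟨fun x => ⟨X (fV x), Y (fH G x)⟩, fun c m => if c = 0 then ⟨X m, 0⟩ else if c = 1 then ⟨0, Y m⟩ else
    ⟨(m / 2 : ℕ) * Γ, if m % 2 = 0 then 0 else Y (gd G (m / 2)).2.2.1⟩, d, fun x hx y hy e => ?_, fun c _ => ?_,
    fun e he => ?_, fun e he e' he' e1 e2 => ?_⟩
  · simp only [Complex.mk.injEq, eX] at e
    obtain ⟨e1, e2⟩ := e
    have key : ∀ x < 5 * G.length, ∀ y < 5 * G.length, ((x / 5 : ℕ) * Γ + if x % 5 = 0 ∨ x % 5 = 2 then 0 else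
        Y (gd G (x / 5)).1) = ((y / 5 : ℕ) * Γ + if y % 5 = 0 ∨ y % 5 = 2 then 0 else Y (gd G (y / 5)).1) →
        x / 5 ≤ y / 5 := fun x hx y hy e => by
      by_contra hn
      have a : ((y / 5 : ℕ) : ℝ) + 1 ≤ (x / 5 : ℕ) := by exact_mod_cast not_le.1 hn
      have a1 := hΓ _ (mem y hy)
      have a2 := (h _ (mem y hy)).2.1
      have a3 := (h _ (mem x hx)).2.1
      have a4 : ((y / 5 : ℕ) + 1) * Γ ≤ (x / 5 : ℕ) * Γ := mul_le_mul_of_nonneg_right a (by linarith)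
      split_ifs at e <;> linarith
    have q := le_antisymm (key x hx y hy e1) (key y hy x hx e1.symm)
    obtain ⟨-, a1, a2, a3, -⟩ := h _ (mem y hy)
    unfold fH at e2
    rw [q] at e1 e2
    by_contra hn
    split_ifs at e1 e2 <;> first | omega | linarith
  · simp only [d]
    split_ifs
    · simp
    · simp
    · exact fun e => by simpa using congrArg re e
  · obtain ⟨x, c, m⟩ := e
    obtain ⟨hx, g | g | ⟨g0, g⟩⟩ := mem_inc.1 he <;> simp only [Prod.mk.injEq] at hx g <;> obtain ⟨rfl, rfl⟩ := g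
    · exact ⟨-Y (fH G x), Complex.ext (by simp [d]) (by simp [d])⟩
    · exact ⟨-X (fV x), Complex.ext (by simp [d]) (by simp [d])⟩
    · have c2 := (cl x hx).1
      obtain ⟨-, -, -, -, -, a⟩ := h _ (mem x hx)
      simp only at g0
      refine ⟨if x % 5 = 0 ∨ x % 5 = 2 then 0 else Y (gd G (x / 5)).1, ?_⟩
      simp only [d, if_neg (show fC G x ≠ 0 by omega), if_neg (show fC G x ≠ 1 by omega), eX]
      have m1 : fM x / 2 = x / 5 := by unfold fM; split_ifs <;> omega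
      have m2 : fM x % 2 = 0 ↔ x % 5 < 2 := by unfold fM; split_ifs <;> omega
      refine Complex.ext (by simp [m1]) ?_
      simp only [add_im, im_ofReal_mul, m1, m2, fH, fC]
      split_ifs <;> first | omega | simp [h0, h2, a, add_comm]
  · obtain ⟨x, c, m⟩ := e
    obtain ⟨x', c', m'⟩ := e'
    simp only at e1
    subst e1
    obtain ⟨hx, g⟩ := mem_inc.1 he
    obtain ⟨-, g'⟩ := mem_inc.1 he'
    obtain ⟨c2, c3⟩ := cl x hx
    have n0 : fC G x ≠ 0 := by omega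
    have n1 : fC G x ≠ 1 := by omega
    simp only [Prod.mk.injEq] at g g'
    rcases g with ⟨rfl, rfl⟩ | ⟨rfl, rfl⟩ | ⟨-, rfl, rfl⟩ <;> rcases g' with ⟨rfl, rfl⟩ | ⟨rfl, rfl⟩ | ⟨-, rfl, rfl⟩ <;>
      first | exact absurd rfl e2 | exact w0 _ _ (by simp [d, n0, n1, c3])

end Pool.Agent.H.MP_aca74d_lc
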