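import Pool.Agent.H.MP_aca74d_lc.D
import Pool.Agent.H.MP_aca74d_lc.E
import Pool.Agent.Lib.lead.CXGraphRed

namespace Pool.Agent.H.MP_aca74d_lc

open Complex Pool.Agent.Lib.ER Pool.Agent.Lib.CX

set_option synthInstance.maxSize 4000

def ARc (a : Gr) : Prop := ∃ p : Fin a.n → ℂ, Function.Injective p ∧
  ∀ v u w, a.G.Adj v u → a.G.Adj v w → u ≠ w → W (p u - p v) (p w - p v)

def gr (n C L : ℕ) (inc : List (ℕ × ℕ × ℕ)) : Gr :=
  mkGr (vs n C L) ((vs n C L ×ˢ vs n C L).filter fun e => decide (rel n inc e.1 e.2))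

theorem rel_ne {n inc u v} (h : rel n inc u v) : u ≠ v := by
  rintro rfl
  unfold rel ladj at h
  omega

theorem gr_iff {n C L inc} : ARc (gr n C L inc) ↔ Draw n C L inc := by
  let e := mkGrIso (vs n C L) ((vs n C L ×ˢ vs n C L).filter fun e => decide (rel n inc e.1 e.2))
  have ad : ∀ u v, (gr n C L inc).G.Adj u v ↔ adj n inc (e u).1 (e v).1 := fun u v => by
    refine e.map_rel_iff.symm.trans ?_
    have h1 : (e u).1 ∈ vs n C L := (e u).2
    have h2 : (e v).1 ∈ vs n C L := (e v).2
    simp only [SimpleGraph.comap_adj, Function.Embedding.subtype_apply, SimpleGraph.fromRel_adj, List.mem_filter,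
      List.mem_product, h1, h2, true_and, decide_eq_true_eq, adj, and_iff_right_iff_imp]
    exact fun h => h.elim rel_ne fun h => (rel_ne h).symm
  constructor
  · rintro ⟨p, hp, h⟩
    refine ⟨fun v => if hv : v ∈ vs n C L then p (e.symm ⟨v, hv⟩) else 0, fun u v hu hv q => ?_,
      fun u v w hu hv hw a b hn => ?_⟩
    · simp only [mem_vs.2 hu, mem_vs.2 hv, dif_pos] at q
      exact congrArg Subtype.val (e.symm.injective (hp q))
    · simp only [mem_vs.2 hu, mem_vs.2 hv, mem_vs.2 hw, dif_pos]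
      exact h _ _ _ ((ad _ _).2 (by simpa using a)) ((ad _ _).2 (by simpa using b))
        fun q => hn (congrArg Subtype.val (e.symm.injective q))
  · rintro ⟨pos, hp, h⟩
    exact ⟨fun i => pos (e i).1, fun i j q => e.injective (Subtype.ext (hp _ _ (mem_vs.1 (e i).2) (mem_vs.1 (e j).2) q)),
      fun v u w a b hn => h _ _ _ (mem_vs.1 (e v).2) (mem_vs.1 (e u).2) (mem_vs.1 (e w).2) ((ad _ _).1 a) ((ad _ _).1 b)
        fun q => hn (e.injective (Subtype.ext q))⟩

def gads (M : ℕ) (E : List Q4) : List Q4 :=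
  (E.map fun e => (e.1 + 1, e.2.1 + 3, e.2.2.1 + 1, e.2.2.2 + 1)) ++
    (List.range M).flatMap fun b => [(b + 1, 2, 1, M + 1 + b), (1, b + 3, 1, M + 1 + b)]

theorem all_gads {M E} {P : Q4 → Prop} : (∀ g ∈ gads M E, P g) ↔
    (∀ e ∈ E, P (e.1 + 1, e.2.1 + 3, e.2.2.1 + 1, e.2.2.2 + 1)) ∧
      ∀ b < M, P (b + 1, 2, 1, M + 1 + b) ∧ P (1, b + 3, 1, M + 1 + b) := by
  simp only [gads, List.forall_mem_append, List.forall_mem_map, List.forall_mem_flatMap, List.mem_range,
    List.forall_mem_cons, List.not_mem_nil, false_imp_iff, implies_true, and_true]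

theorem inc_lt {G : List Q4} {C N : ℕ} (h2 : 2 < C) (h : ∀ g ∈ G, g.1 < N ∧ g.2.1 < C ∧ g.2.2.1 < N ∧ g.2.2.2 < N) :
    ∀ e ∈ inc G, e.1 < 5 * G.length ∧ e.2.1 < C ∧ e.2.2 < 2 * G.length + N := by
  rintro ⟨x, c, m⟩ he
  obtain ⟨hx, g⟩ := mem_inc.1 he
  simp only [Prod.mk.injEq] at hx g ⊢
  have : gd G (x / 5) ∈ G := by
    have : x / 5 < G.length := by omega
    simp [gd, this]
  have := h _ this
  unfold fV fH fC fM at g
  split_ifs at g <;> omega

def red (a : List Unit × List Q4) : Gr :=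
  gr (5 * (gads a.1.length a.2).length) (a.1.length + 3) (2 * (gads a.1.length a.2).length + (2 * a.1.length + 1))
    (inc (gads a.1.length a.2))

theorem pt_vs : PT fun a : List Unit × List Unit × List Unit => vs a.1.length a.2.1.length a.2.2.length := by
  unfold vs isV val; fun_prop

theorem pt_gr : PT fun a : (List Unit × List Unit × List Unit) × List (ℕ × ℕ × ℕ) =>
    gr a.1.1.length a.1.2.1.length a.1.2.2.length a.2 := by
  have h : PT fun a : (List Unit × List Unit × List Unit) × List (ℕ × ℕ × ℕ) =>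
    vs a.1.1.length a.1.2.1.length a.1.2.2.length :=
      (pt_vs.comp (g := fun a : (List Unit × List Unit × List Unit) × List (ℕ × ℕ × ℕ) => a.1) (by fun_prop) :)
  have h2 : PT fun a : (List V × ℕ) × List (ℕ × ℕ × ℕ) =>
      mkGr a.1.1 ((a.1.1 ×ˢ a.1.1).filter fun e => decide (rel a.1.2 a.2 e.1 e.2)) := by
    unfold rel ladj; fun_prop
  have h3 : PT fun a : (List Unit × List Unit × List Unit) × List (ℕ × ℕ × ℕ) =>
    ((vs a.1.1.length a.1.2.1.length a.1.2.2.length, a.1.1.length), a.2) := (h.pair (by fun_prop)).pair (by fun_prop)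
  exact (h2.comp h3 :)

theorem pt_inc : PT inc := by unfold inc fV fH fC fM gd; fun_prop

theorem pt_red : PT red := by
  have h : PT fun a : List Unit × List Q4 => gads a.1.length a.2 := by unfold gads; fun_prop
  have h2 : PT fun a : List Unit × List Q4 => ((List.replicate (5 * (gads a.1.length a.2).length) (),
      List.replicate (a.1.length + 3) (),
      List.replicate (2 * (gads a.1.length a.2).length + (2 * a.1.length + 1)) ()), inc (gads a.1.length a.2)) :=
    PT.pair (by fun_prop) (pt_inc.comp h)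
  exact (pt_gr.comp h2).congr fun a => by simp only [red, List.length_replicate]

theorem hard : Red ETR ARc := by
  refine etr_of_dq red pt_red fun M E h0 hE => ?_
  have lt := @inc_lt (gads M.length E) (M.length + 3) (2 * M.length + 1) (by omega) (all_gads.2
    ⟨fun e he => by have := hE e he; unfold Q4.lt at this; simp only; omega, fun b hb => by simp only; omega⟩)
  unfold red
  rw [gr_iff]
  constructor
  · rintro ⟨x, x0, mono, hx⟩
    refine complete lt ?_
    have one : ∀ i < M.length, 1 ≤ x i := fun i hi => by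
      rcases Nat.eq_zero_or_pos i with rfl | h
      · exact x0.ge
      · exact x0 ▸ (mono 0 i h hi).le
    let Y : ℕ → ℝ := fun m => if m = 0 then 0 else if m ≤ M.length then x (m - 1) else x (m - (M.length + 1)) + 1
    have y1 : ∀ i < M.length, Y (i + 1) = x i := fun i hi => by simp [Y, Nat.succ_le_of_lt hi]
    have y2 : ∀ i, Y (M.length + 1 + i) = x i + 1 := fun i => by
      simp [Y, show ¬M.length + 1 + i ≤ M.length by omega]
    have y0 : Y 1 = 1 := (y1 0 h0).trans x0
    refine gad_complete Y (fun c => if c = 2 then 1 else x (c - 3)) (by simp [Y]) (by simp) (all_gads.2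
      ⟨fun e he => ?_, fun b hb => ?_⟩)
    · obtain ⟨a, b, c, d⟩ := hE e he
      have := hx e he
      unfold Q4.ok at this
      have a1 := one _ a
      have a2 := one _ b
      have a3 := one _ c
      simp only [y1 _ a, y1 _ c, y1 _ d, show e.2.1 + 3 ≠ 2 by omega, if_false, Nat.add_sub_cancel]
      refine ⟨by omega, by linarith, by linarith, by nlinarith, by linarith, this.symm⟩
    · have := one _ hb
      simp only [y1 _ hb, y2, y0, show b + 3 ≠ 2 by omega, if_false, if_true, Nat.add_sub_cancel]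
      refine ⟨⟨le_rfl, ?_, ?_, ?_, ?_, ?_⟩, by omega, ?_, ?_, ?_, ?_, ?_⟩ <;> linarith
  · intro h
    obtain ⟨Y, τ, h⟩ := gad_sound (by omega) (sound lt h)
    obtain ⟨h1, h2⟩ := all_gads.1 h
    simp only at h1 h2
    have y1 : Y 1 ≠ 0 := (h2 0 h0).2.1
    refine ⟨fun i => Y (i + 1) / Y 1, by simpa using y1, fun e he => ?_⟩
    obtain ⟨⟨-, t, a⟩, -, -, b⟩ := h2 _ (hE e he).2.1
    obtain ⟨-, -, c⟩ := h1 e he
    unfold Q4.ok
    rw [t] at a
    field_simp
    linear_combination -Y 1 * c + Y (e.1 + 1) * (b - a)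

end Pool.Agent.H.MP_aca74d_lc
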