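import Pool.Agent.H.MP_aca74d_lc.F

namespace Pool.Agent.H.MP_aca74d_lc

open Complex Pool.Agent.Lib.ER Pool.Agent.Lib.CX

set_option synthInstance.maxSize 4000

def df (i j o : ℕ) : Tm := .add (.var (2 * i + o)) (.mul (.num (-1)) (.var (2 * j + o)))
def dot (i j k : ℕ) : Tm := .add (.mul (df i k 0) (df j k 0)) (.mul (df i k 1) (df j k 1))
def neF (e : ℕ × ℕ) : Fm := .not (.and (.eq (df e.1 e.2 0) (.num 0)) (.eq (df e.1 e.2 1) (.num 0)))
def wF (e : ℕ × ℕ × ℕ) : Fm := .or (.le (dot e.2.1 e.2.2 e.1) (.num 0))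
  (.le (.mul (.num 4) (.mul (dot e.2.1 e.2.2 e.1) (dot e.2.1 e.2.2 e.1)))
    (.mul (dot e.2.1 e.2.1 e.1) (dot e.2.2 e.2.2 e.1)))
def prs (a : Gr) : List (ℕ × ℕ) := (List.range a.n ×ˢ List.range a.n).filter fun e => decide (e.1 ≠ e.2)
def trs (a : Gr) : List (ℕ × ℕ × ℕ) := (List.range a.n ×ˢ List.range a.n ×ˢ List.range a.n).filter fun e =>
  a.adjB e.1 e.2.1 && a.adjB e.1 e.2.2 && decide (e.2.1 ≠ e.2.2)
def conj (l : List Fm) : Fm := l.foldr .and (.eq (.num 0) (.num 0))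
def fm (a : Gr) : Fm := conj ((prs a).map neF ++ (trs a).map wF)

theorem conj_toks (l : List Fm) : (conj l).toks = (l.flatMap fun f => (8, 0) :: f.toks) ++ [(4, 0), (1, 0), (1, 0)] := by
  induction l with
  | nil => rfl
  | cons f l ih => simp only [conj, List.foldr_cons, Fm.toks, List.flatMap_cons, List.cons_append, List.append_assoc] at *; rw [ih]

theorem conj_holds (l : List Fm) (x) : (conj l).Holds x ↔ ∀ f ∈ l, f.Holds x := by
  induction l with
  | nil => simp [conj, Fm.Holds]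
  | cons f l ih => simp only [conj, List.foldr_cons, Fm.Holds, List.forall_mem_cons] at *; rw [ih]

@[fun_prop] theorem pt_df {α} [Enc α] {i j o : α → ℕ} (hi : PT i) (hj : PT j) (ho : PT o) :
    PT fun a => (df (i a) (j a) (o a)).toks := by
  simp only [df, Tm.toks]; fun_prop

@[fun_prop] theorem pt_dot {α} [Enc α] {i j o : α → ℕ} (hi : PT i) (hj : PT j) (ho : PT o) :
    PT fun a => (dot (i a) (j a) (o a)).toks := by
  have h : ∀ {u v : α → ℕ} (c : ℕ), PT u → PT v → PT fun a => (df (u a) (v a) c).toks := fun c a b =>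
    pt_df a b (PT.const c)
  have h1 := h 0 hi ho
  have h2 := h 0 hj ho
  have h3 := h 1 hi ho
  have h4 := h 1 hj ho
  simp only [dot, Tm.toks]
  exact (PT.const _).cons (((PT.const _).cons (h1.append h2)).append ((PT.const _).cons (h3.append h4)))

theorem pt_neF : PT fun e => (neF e).toks := by
  have h1 : PT fun e : ℕ × ℕ => (df e.1 e.2 0).toks := pt_df (by fun_prop) (by fun_prop) (PT.const 0)
  have h2 : PT fun e : ℕ × ℕ => (df e.1 e.2 1).toks := pt_df (by fun_prop) (by fun_prop) (PT.const 1)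
  simp only [neF, Fm.toks]
  exact (PT.const _).cons ((PT.const _).cons (((PT.const _).cons (h1.append (PT.const _))).append
    ((PT.const _).cons (h2.append (PT.const _)))))

theorem pt_wF : PT fun e => (wF e).toks := by
  have h1 : PT fun e : ℕ × ℕ × ℕ => (dot e.2.1 e.2.2 e.1).toks := pt_dot (by fun_prop) (by fun_prop) (by fun_prop)
  have h2 : PT fun e : ℕ × ℕ × ℕ => (dot e.2.1 e.2.1 e.1).toks := pt_dot (by fun_prop) (by fun_prop) (by fun_prop)
  have h3 : PT fun e : ℕ × ℕ × ℕ => (dot e.2.2 e.2.2 e.1).toks := pt_dot (by fun_prop) (by fun_prop) (by fun_prop)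
  simp only [wF, Fm.toks, Tm.toks]
  exact (PT.const _).cons (((PT.const _).cons (h1.append (PT.const _))).append ((PT.const _).cons
    (((PT.const _).cons ((PT.const _).append ((PT.const _).cons (h1.append h1)))).append
      ((PT.const _).cons (h2.append h3)))))

theorem pt_fm : PT fm := by
  have h1 : PT prs := by unfold prs; fun_prop
  have h2 : PT trs := by unfold trs; fun_prop
  have h3 : PT fun a => (prs a).flatMap fun e => (8, 0) :: (neF e).toks :=
    PT.flatMap ((PT.const _).cons (pt_neF.comp (g := fun p : Gr × ℕ × ℕ => p.2) (by fun_prop) :)) h1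
  have h4 : PT fun a => (trs a).flatMap fun e => (8, 0) :: (wF e).toks :=
    PT.flatMap ((PT.const _).cons (pt_wF.comp (g := fun p : Gr × ℕ × ℕ × ℕ => p.2) (by fun_prop) :)) h2
  have h5 : PT fun a => (fm a).toks := ((h3.append h4).append (PT.const [(4, 0), (1, 0), (1, 0)])).congr fun a => by
    simp only [fm, conj_toks, List.flatMap_append, List.flatMap_map]
  exact h5.cast fun _ => rfl

theorem W_iff (a b : ℂ) : W a b ↔ a.re * b.re + a.im * b.im ≤ 0 ∨
    4 * ((a.re * b.re + a.im * b.im) * (a.re * b.re + a.im * b.im)) ≤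
      (a.re * a.re + a.im * a.im) * (b.re * b.re + b.im * b.im) := by
  have e : (a.re * a.re + a.im * a.im) * (b.re * b.re + b.im * b.im) = (‖a‖ * ‖b‖) ^ 2 := by
    rw [mul_pow, nsq, nsq]; ring
  have p : 0 ≤ ‖a‖ * ‖b‖ := by positivity
  rw [e]
  unfold W
  generalize a.re * b.re + a.im * b.im = t
  generalize ‖a‖ * ‖b‖ = r at *
  constructor
  · intro h
    by_cases g : t ≤ 0
    · exact Or.inl g
    · exact Or.inr (by nlinarith)
  · rintro (h | h)
    · linarith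
    · by_contra hn
      nlinarith

theorem fm_holds (a : Gr) (x : ℕ → ℝ) : (fm a).Holds x ↔
    Function.Injective (fun i : Fin a.n => (⟨x (2 * i), x (2 * i + 1)⟩ : ℂ)) ∧
    ∀ v u w : Fin a.n, a.G.Adj v u → a.G.Adj v w → u ≠ w →
      W ((⟨x (2 * u), x (2 * u + 1)⟩ : ℂ) - ⟨x (2 * v), x (2 * v + 1)⟩)
        ((⟨x (2 * w), x (2 * w + 1)⟩ : ℂ) - ⟨x (2 * v), x (2 * v + 1)⟩) := by
  have e1 : ∀ i j, (neF (i, j)).Holds x ↔ (⟨x (2 * i), x (2 * i + 1)⟩ : ℂ) ≠ ⟨x (2 * j), x (2 * j + 1)⟩ := fun i j => by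
    simp [neF, df, Fm.Holds, Tm.eval, add_neg_eq_zero]
  have e2 : ∀ v u w, (wF (v, u, w)).Holds x ↔ W ((⟨x (2 * u), x (2 * u + 1)⟩ : ℂ) - ⟨x (2 * v), x (2 * v + 1)⟩)
      ((⟨x (2 * w), x (2 * w + 1)⟩ : ℂ) - ⟨x (2 * v), x (2 * v + 1)⟩) := fun v u w => by
    simp [W_iff, wF, dot, df, Fm.Holds, Tm.eval, sub_eq_add_neg]
  simp only [fm, conj_holds, List.forall_mem_append, List.forall_mem_map, prs, trs, List.mem_filter, Prod.forall,
    List.mem_product, List.mem_range, e1, e2, decide_eq_true_eq, Bool.and_eq_true]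
  refine and_congr ⟨fun h i j q => ?_, fun h i j q r => q.2 (congrArg Fin.val (@h ⟨i, q.1.1⟩ ⟨j, q.1.2⟩ r))⟩
    ⟨fun h v u w a1 a2 a3 => h _ _ _ ⟨⟨v.2, u.2, w.2⟩, ⟨(a.adjB_iff _ _).2 a1, (a.adjB_iff _ _).2 a2⟩,
      fun q => a3 (Fin.ext q)⟩, fun h v u w q => h ⟨v, q.1.1⟩ ⟨u, q.1.2.1⟩ ⟨w, q.1.2.2⟩
        ((a.adjB_iff _ _).1 q.2.1.1) ((a.adjB_iff _ _).1 q.2.1.2) fun r => q.2.2 (congrArg Fin.val r)⟩
  by_contra hn
  exact h i j ⟨⟨i.2, j.2⟩, fun r => hn (Fin.ext r)⟩ q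

theorem memb : Red ARc ETR := by
  refine ⟨fm, pt_fm, fun a => ⟨fun ⟨p, h⟩ => ?_, fun ⟨x, h⟩ => ⟨_, (fm_holds a x).1 h⟩⟩⟩
  let x : ℕ → ℝ := fun i => if h : i / 2 < a.n then (if i % 2 = 0 then (p ⟨_, h⟩).re else (p ⟨_, h⟩).im) else 0
  have e : ∀ i : Fin a.n, (⟨x (2 * i), x (2 * i + 1)⟩ : ℂ) = p i := fun i => by
    have h1 : 2 * i.1 / 2 = i := by omega
    have h2 : (2 * i.1 + 1) / 2 = i := by omega
    refine Complex.ext ?_ ?_
    · simp [x, h1]
    · simp [x, h2]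
  refine ⟨x, (fm_holds a x).2 ?_⟩
  simp only [e]
  exact h

theorem angle_iff {a b : ℂ} (ha : a ≠ 0) (hb : b ≠ 0) : Real.pi / 3 ≤ InnerProductGeometry.angle a b ↔ W a b := by
  have p : 0 < ‖a‖ * ‖b‖ := mul_pos (norm_pos_iff.2 ha) (norm_pos_iff.2 hb)
  have e : W a b ↔ inner ℝ a b / (‖a‖ * ‖b‖) ≤ 1 / 2 := by
    rw [div_le_iff₀ p, Complex.inner]
    unfold W
    simp only [mul_re, conj_re, conj_im]
    constructor <;> intro h <;> linarith
  rw [e]
  constructor
  · intro h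
    rw [← InnerProductGeometry.cos_angle, ← Real.cos_pi_div_three]
    exact Real.cos_le_cos_of_nonneg_of_le_pi (by positivity) (InnerProductGeometry.angle_le_pi _ _) h
  · intro h
    have : Real.arccos (1 / 2) = Real.pi / 3 := by
      rw [← Real.cos_pi_div_three, Real.arccos_cos (by positivity) (by linarith [Real.pi_pos])]
    rw [← this]
    exact Real.arccos_le_arccos h

theorem ar_iff (a : Gr) : (∃ p : Fin a.n → EuclideanSpace ℝ (Fin 2), Function.Injective p ∧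
    ∀ v u w, a.G.Adj v u → a.G.Adj v w → u ≠ w → Real.pi / 3 ≤ EuclideanGeometry.angle (p u) (p v) (p w)) ↔ ARc a := by
  let e := Complex.orthonormalBasisOneI.repr
  have key : ∀ p : Fin a.n → ℂ, Function.Injective p → ∀ v u w, a.G.Adj v u → a.G.Adj v w →
      (Real.pi / 3 ≤ EuclideanGeometry.angle (e (p u)) (e (p v)) (e (p w)) ↔ W (p u - p v) (p w - p v)) :=
    fun p hp v u w h1 h2 => by
      rw [← angle_iff (sub_ne_zero.2 fun q => h1.ne' (hp q)) (sub_ne_zero.2 fun q => h2.ne' (hp q)),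
        ← e.toLinearIsometry.angle_map]
      simp [EuclideanGeometry.angle]
  constructor
  · rintro ⟨p, hp, h⟩
    have hq : Function.Injective fun i => e.symm (p i) := e.symm.injective.comp hp
    exact ⟨_, hq, fun v u w h1 h2 h3 => (key _ hq v u w h1 h2).1 (by simpa using h v u w h1 h2 h3)⟩
  · rintro ⟨p, hp, h⟩
    exact ⟨fun i => e (p i), e.injective.comp hp, fun v u w h1 h2 h3 => (key _ hp v u w h1 h2).2 (h v u w h1 h2 h3)⟩

end Pool.Agent.H.MP_aca74d_lc
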